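import Pool.Agent.helper36.UT.Spec

/-!
# Row ITE of project UT: case distinction
-/

set_option autoImplicit false

open Filter Polynomial FirstOrder FirstOrder.Language

namespace Pool.Agent.UnivT

theorem ITE_mono (hLSU : LSU_stmt) {k : ℕ} {f : ℕ → ℤ} (h : Lev k f) : ∀ d : ℕ, Lev (k + d) f := by
  intro d
  induction d with
  | zero => exact h
  | succ d ih => exact hLSU _ _ ih

theorem ITE_le (hLSU : LSU_stmt) {k K : ℕ} {f : ℕ → ℤ} (h : Lev k f) (hk : k ≤ K) : Lev K f := by
  obtain ⟨d, rfl⟩ := Nat.exists_eq_add_of_le hk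
  exact ITE_mono hLSU h d

theorem ITE (hLGD : LGD_stmt) (hLSU : LSU_stmt) : ITE_stmt := by
  intro f g h hf hg hh
  obtain ⟨k1, h1⟩ := hf
  obtain ⟨k2, h2⟩ := hg
  obtain ⟨k3, h3⟩ := hh
  have hT : Tri f := (hLGD k1).2.2.2 f h1
  have key : (∀ᶠ H : ℕ in atTop, 0 ≤ f H) ∨ (∀ᶠ H : ℕ in atTop, ¬ 0 ≤ f H) := by
    rcases hT with ⟨c, hc⟩ | hT | hT
    · by_cases h0 : 0 ≤ c
      · left
        filter_upwards [hc] with H hH
        rw [hH]; exact h0
      · right
        filter_upwards [hc] with H hH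
        rw [hH]; exact h0
    · left
      exact hT.eventually_ge_atTop 0
    · right
      filter_upwards [hT.eventually_lt_atBot 0] with H hH
      exact not_le.mpr hH
  rcases key with hk | hk
  · refine ⟨k2, (hLGD k2).2.2.1 g _ h2 ?_⟩
    filter_upwards [hk] with H hH
    rw [if_pos hH]
  · refine ⟨k3, (hLGD k3).2.2.1 h _ h3 ?_⟩
    filter_upwards [hk] with H hH
    rw [if_neg hH]

end Pool.Agent.UnivT
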